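import Pool.Agent.Helper87.CA.Goals

/-!
Packet CA-SUB (MP_c5396e_co): number of small subsets.
-/

set_option autoImplicit false

open Finset

namespace Pool.Agent.Helper83.CA

theorem gSUB : Pool.Agent.Helper87.CA.G_SUB := by
  classical
  intro α _ _ s
  set F : (Fin s → Option α) → Finset α :=
    fun f => (Finset.univ : Finset α).filter (fun a => ∃ i, f i = some a) with hF
  have hsub : ((Finset.univ : Finset (Finset α)).filter (fun A => A.card ≤ s)) ⊆
      (Finset.univ : Finset (Fin s → Option α)).image F := by
    intro A hA
    rw [Finset.mem_filter] at hA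
    have hAs : A.card ≤ s := hA.2
    rw [Finset.mem_image]
    refine ⟨fun i => if h : i.1 < A.card then some (A.equivFin.symm ⟨i.1, h⟩).1 else none,
      Finset.mem_univ _, ?_⟩
    ext a
    rw [hF, Finset.mem_filter]
    constructor
    · rintro ⟨-, i, hi⟩
      dsimp only at hi
      by_cases h : i.1 < A.card
      · rw [dif_pos h] at hi
        have := Option.some.inj hi
        rw [← this]
        exact (A.equivFin.symm ⟨i.1, h⟩).2
      · rw [dif_neg h] at hi
        exact absurd hi (by simp)
    · intro ha
      refine ⟨Finset.mem_univ _, ⟨(A.equivFin ⟨a, ha⟩).1,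
        lt_of_lt_of_le (A.equivFin ⟨a, ha⟩).2 hAs⟩, ?_⟩
      dsimp only
      rw [dif_pos (A.equivFin ⟨a, ha⟩).2]
      simp
  calc ((Finset.univ : Finset (Finset α)).filter (fun A => A.card ≤ s)).card
      ≤ ((Finset.univ : Finset (Fin s → Option α)).image F).card := Finset.card_le_card hsub
    _ ≤ (Finset.univ : Finset (Fin s → Option α)).card := Finset.card_image_le
    _ = (Fintype.card α + 1) ^ s := by
        rw [Finset.card_univ, Fintype.card_fun, Fintype.card_option, Fintype.card_fin]

end Pool.Agent.Helper83.CA
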